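import Mathlib
import Pool.Agent.H38.AB.Targets
import Pool.Agent.H89.PS.LOWC

/-!
# The lower bound for the number of admissible triples with small radical and few prime factors

Row LWB of the board `aab_modules`.
-/

set_option autoImplicit false

open Pool.Agent.H38.RB Pool.Agent.H38.PS Pool.Agent.H38.AB Pool.Agent.H89.PS

namespace Pool.Agent.H6.AB

private theorem two_pow_le {n : ℕ} (hn : n ≠ 0) : 2 ^ n.primeFactors.card ≤ n.divisors.card := by
  rw [Nat.card_divisors hn, ← Finset.prod_const]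
  refine Finset.prod_le_prod' fun p hp => ?_
  have h1 := (Nat.prime_of_mem_primeFactors hp).factorization_pos_of_dvd hn
    (Nat.dvd_of_mem_primeFactors hp)
  omega

/-- the divisor sum -/
private theorem sum_div (N : ℕ) :
    ∑ n ∈ Finset.Ioc 0 N, (n.divisors.card : ℝ) ≤ N * (1 + Real.log N) := by
  classical
  have h1 : ∀ n ∈ Finset.Ioc 0 N, (n.divisors.card : ℝ) =
      ∑ d ∈ Finset.Ioc 0 N, if d ∣ n then (1 : ℝ) else 0 := by
    intro n hn
    rw [Finset.sum_boole]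
    have : n.divisors = (Finset.Ioc 0 N).filter (· ∣ n) := by
      ext d
      rw [Nat.mem_divisors, Finset.mem_filter, Finset.mem_Ioc]
      rw [Finset.mem_Ioc] at hn
      constructor
      · rintro ⟨h, _⟩
        exact ⟨⟨Nat.pos_of_dvd_of_pos h hn.1, (Nat.le_of_dvd hn.1 h).trans hn.2⟩, h⟩
      · rintro ⟨_, h⟩
        exact ⟨h, by omega⟩
    rw [this]
  rw [Finset.sum_congr rfl h1, Finset.sum_comm]
  have h2 : ∀ d ∈ Finset.Ioc 0 N, (∑ n ∈ Finset.Ioc 0 N, if d ∣ n then (1 : ℝ) else 0) ≤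
      N * (d : ℝ)⁻¹ := by
    intro d _
    rw [Finset.sum_boole, Nat.Ioc_filter_dvd_card_eq_div]
    exact (Nat.cast_div_le).trans (le_of_eq (div_eq_mul_inv _ _))
  refine (Finset.sum_le_sum h2).trans ?_
  rw [← Finset.mul_sum]
  refine mul_le_mul_of_nonneg_left ?_ (Nat.cast_nonneg _)
  have h3 := harmonic_le_one_add_log N
  rw [harmonic_eq_sum_Icc] at h3
  push_cast at h3
  have h4 : Finset.Icc 1 N = Finset.Ioc 0 N := by
    ext x
    rw [Finset.mem_Icc, Finset.mem_Ioc]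
    omega
  rw [h4] at h3
  exact h3

/-- the numbers with many prime factors -/
private noncomputable def Bd (N : ℕ) (k : ℝ) : Finset ℕ :=
  (Finset.Ioc 0 N).filter fun n => k < (n.primeFactors.card : ℝ)

private theorem bad_card (N : ℕ) (k : ℝ) :
    ((Bd N k).card : ℝ) * (2 : ℝ) ^ k ≤ N * (1 + Real.log N) := by
  unfold Bd
  rw [← nsmul_eq_mul, ← Finset.sum_const]
  refine le_trans ?_ (sum_div N)
  refine (Finset.sum_le_sum fun n hn => ?_).trans
    (Finset.sum_le_sum_of_subset_of_nonneg (Finset.filter_subset _ _)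
      fun n _ _ => Nat.cast_nonneg _)
  rw [Finset.mem_filter, Finset.mem_Ioc] at hn
  have h1 : (2 : ℝ) ^ k ≤ (2 : ℝ) ^ (n.primeFactors.card : ℝ) :=
    Real.rpow_le_rpow_of_exponent_le (by norm_num) hn.2.le
  rw [Real.rpow_natCast] at h1
  refine h1.trans ?_
  exact_mod_cast two_pow_le (by omega : n ≠ 0)

private theorem pr_tr (q : ℕ × ℕ) : pr (tr q) = q.1 * q.2 * (q.1 + q.2) := by
  show ((q.1 : ℤ) * (q.2 : ℤ) * -((q.1 : ℤ) + q.2)).natAbs = _
  rw [mul_neg, Int.natAbs_neg]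
  have : (q.1 : ℤ) * (q.2 : ℤ) * ((q.1 : ℤ) + q.2) = ((q.1 * q.2 * (q.1 + q.2) : ℕ) : ℤ) := by
    push_cast
    ring
  rw [this, Int.natAbs_natCast]

private theorem bad_pairs (Y : ℕ) (L : ℝ) :
    (((CP Y).filter fun q => ¬ ((pr (tr q)).primeFactors.card : ℝ) ≤ L).card : ℝ) ≤
      Y * (Bd Y (L / 3)).card + Y * (Bd Y (L / 3)).card + Y * (Bd (2 * Y) (L / 3)).card := by
  classical
  have h1 : ((CP Y).filter fun q => ¬ ((pr (tr q)).primeFactors.card : ℝ) ≤ L) ⊆
      (((Bd Y (L / 3)) ×ˢ Finset.Ioc 0 Y) ∪ (Finset.Ioc 0 Y ×ˢ (Bd Y (L / 3)))) ∪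
      ((Finset.Ioc 0 Y ×ˢ (Bd (2 * Y) (L / 3))).image fun q => (q.1, q.2 - q.1)) := by
    intro q hq
    rw [Finset.mem_filter] at hq
    obtain ⟨hq, hL⟩ := hq
    unfold CP at hq
    rw [Finset.mem_filter, Finset.mem_product, Finset.mem_Icc, Finset.mem_Icc] at hq
    obtain ⟨⟨⟨ha, hb⟩, hc, hd⟩, hn⟩ := hq
    rw [pr_tr, Nat.primeFactors_mul (by positivity) (by omega),
      Nat.primeFactors_mul (by omega) (by omega)] at hL
    push Not at hL
    have h2 : (((q.1.primeFactors ∪ q.2.primeFactors) ∪ (q.1 + q.2).primeFactors).card : ℝ) ≤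
        q.1.primeFactors.card + q.2.primeFactors.card + (q.1 + q.2).primeFactors.card := by
      have h3 := Finset.card_union_le (q.1.primeFactors ∪ q.2.primeFactors)
        (q.1 + q.2).primeFactors
      have h4 := Finset.card_union_le q.1.primeFactors q.2.primeFactors
      have h5 : (((q.1.primeFactors ∪ q.2.primeFactors) ∪ (q.1 + q.2).primeFactors).card) ≤
        q.1.primeFactors.card + q.2.primeFactors.card + (q.1 + q.2).primeFactors.card := by omega
      exact_mod_cast h5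
    rw [Finset.mem_union, Finset.mem_union, Finset.mem_product, Finset.mem_product,
      Finset.mem_image]
    by_cases c1 : L / 3 < (q.1.primeFactors.card : ℝ)
    · left; left
      unfold Bd
      rw [Finset.mem_filter, Finset.mem_Ioc, Finset.mem_Ioc]
      exact ⟨⟨⟨by omega, hb⟩, c1⟩, by omega, hd⟩
    by_cases c2 : L / 3 < (q.2.primeFactors.card : ℝ)
    · left; right
      unfold Bd
      rw [Finset.mem_filter, Finset.mem_Ioc, Finset.mem_Ioc]
      exact ⟨⟨by omega, hb⟩, ⟨by omega, hd⟩, c2⟩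
    · right
      refine ⟨(q.1, q.1 + q.2), ?_, ?_⟩
      · unfold Bd
        rw [Finset.mem_product, Finset.mem_filter, Finset.mem_Ioc, Finset.mem_Ioc]
        refine ⟨⟨by show 0 < q.1; omega, hb⟩, ⟨by show 0 < q.1 + q.2; omega,
          by show q.1 + q.2 ≤ 2 * Y; omega⟩, ?_⟩
        show L / 3 < ((q.1 + q.2).primeFactors.card : ℝ)
        push Not at c1 c2
        linarith
      · refine Prod.ext rfl ?_
        show q.1 + q.2 - q.1 = q.2
        omega
  have h2 := (Finset.card_le_card h1).trans (Finset.card_union_le _ _)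
  have h3 := Finset.card_union_le ((Bd Y (L / 3)) ×ˢ Finset.Ioc 0 Y)
    (Finset.Ioc 0 Y ×ˢ (Bd Y (L / 3)))
  have h4 : ((Finset.Ioc 0 Y ×ˢ (Bd (2 * Y) (L / 3))).image
      fun q : ℕ × ℕ => (q.1, q.2 - q.1)).card ≤ Y * (Bd (2 * Y) (L / 3)).card := by
    refine Finset.card_image_le.trans ?_
    rw [Finset.card_product, Nat.card_Ioc, Nat.sub_zero]
  rw [Finset.card_product, Finset.card_product, Nat.card_Ioc, Nat.sub_zero] at h3
  have h5 : ((CP Y).filter fun q => ¬ ((pr (tr q)).primeFactors.card : ℝ) ≤ L).card ≤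
      Y * (Bd Y (L / 3)).card + Y * (Bd Y (L / 3)).card + Y * (Bd (2 * Y) (L / 3)).card := by
    have h6 : (Bd Y (L / 3)).card * Y = Y * (Bd Y (L / 3)).card := mul_comm _ _
    omega
  exact_mod_cast h5

/-- the size of the loss -/
private theorem ev (β : ℝ) (hβ : 0 < β) : ∃ X1 : ℝ, 8 ≤ X1 ∧ ∀ X : ℝ, X1 ≤ X →
    32 * (1 + Real.log X) ≤ (2 : ℝ) ^ (Real.log X ^ β / 3) := by
  have h1 : Filter.Tendsto (fun x : ℝ => Real.exp (Real.log 2 / 3 * x) / x ^ (1 / β))
      Filter.atTop Filter.atTop :=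
    tendsto_exp_mul_div_rpow_atTop (1 / β) (Real.log 2 / 3)
      (div_pos (Real.log_pos (by norm_num)) (by norm_num))
  have h2 : Filter.Tendsto (fun X : ℝ => Real.log X ^ β) Filter.atTop Filter.atTop :=
    (tendsto_rpow_atTop hβ).comp Real.tendsto_log_atTop
  have h3 := ((h1.comp h2).eventually_ge_atTop 64).and
    ((Real.tendsto_log_atTop.eventually_ge_atTop 1).and (Filter.eventually_ge_atTop (8 : ℝ)))
  obtain ⟨X1, hX1⟩ := Filter.eventually_atTop.1 h3
  refine ⟨max X1 8, le_max_right _ _, fun X hX => ?_⟩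
  obtain ⟨h4, h5, -⟩ := hX1 X ((le_max_left _ _).trans hX)
  have hl0 : 0 ≤ Real.log X := by linarith
  have hl1 : 0 < Real.log X := by linarith
  have h6 : (Real.log X ^ β) ^ (1 / β) = Real.log X := by
    rw [← Real.rpow_mul hl0, mul_one_div_cancel hβ.ne', Real.rpow_one]
  have h7 : 64 ≤ Real.exp (Real.log 2 / 3 * Real.log X ^ β) / (Real.log X ^ β) ^ (1 / β) := h4
  rw [h6, le_div_iff₀ hl1] at h7
  have h8 : (2 : ℝ) ^ (Real.log X ^ β / 3) = Real.exp (Real.log 2 / 3 * Real.log X ^ β) := by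
    rw [Real.rpow_def_of_pos (by norm_num)]
    congr 1
    ring
  rw [h8]
  linarith

private theorem fin_ht' (X L : ℝ) : {x : Fin 3 → ℤ | Adm x ∧ (pd (pr x).primeFactors : ℝ) ≤ X ∧
    ((pr x).primeFactors.card : ℝ) ≤ L ∧ (ht x : ℝ) ≤ X}.Finite :=
  (fin_ht X).subset fun _ hx => ⟨hx.1, hx.2.1, hx.2.2.2⟩

theorem pf_LWB : T_LWB := by
  classical
  intro β hβ
  obtain ⟨X1, hX1, hev⟩ := ev β hβ
  have hX10 : 0 < X1 := by linarith
  refine ⟨min (1 / 128) (X1 ^ (-(2 / 3) : ℝ)), lt_min (by norm_num)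
    (Real.rpow_pos_of_pos hX10 _), ?_⟩
  intro X hX
  have hX0 : (0 : ℝ) ≤ X := by linarith
  rcases lt_or_ge X X1 with hlt | hge
  · -- small values
    have h1 : X ^ (2 / 3 : ℝ) ≤ X1 ^ (2 / 3 : ℝ) :=
      Real.rpow_le_rpow hX0 hlt.le (by norm_num)
    have h2 : min (1 / 128) (X1 ^ (-(2 / 3) : ℝ)) * X ^ (2 / 3 : ℝ) ≤ 1 := by
      calc min (1 / 128) (X1 ^ (-(2 / 3) : ℝ)) * X ^ (2 / 3 : ℝ)
          ≤ X1 ^ (-(2 / 3) : ℝ) * X1 ^ (2 / 3 : ℝ) :=
            mul_le_mul (min_le_right _ _) h1 (Real.rpow_nonneg hX0 _)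
              (Real.rpow_nonneg hX10.le _)
        _ = 1 := by
            rw [← Real.rpow_add hX10]
            norm_num
    refine h2.trans ?_
    have hlog : 1 ≤ Real.log X := by
      rw [Real.le_log_iff_exp_le (by linarith)]
      have := Real.exp_one_lt_d9
      linarith
    have h3 : tr (1, 1) ∈ {x : Fin 3 → ℤ | Adm x ∧ (pd (pr x).primeFactors : ℝ) ≤ X ∧
        ((pr x).primeFactors.card : ℝ) ≤ Real.log X ^ β ∧ (ht x : ℝ) ≤ X} := by
      have e1 : pr (tr (1, 1)) = 2 := pr_tr (1, 1)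
      refine ⟨tr_adm le_rfl le_rfl (by norm_num), ?_, ?_, ?_⟩
      · rw [e1, Nat.Prime.primeFactors Nat.prime_two]
        unfold pd
        rw [Finset.prod_singleton]
        push_cast
        linarith
      · rw [e1, Nat.Prime.primeFactors Nat.prime_two, Finset.card_singleton, Nat.cast_one]
        exact Real.one_le_rpow hlog hβ.le
      · have h4 : ht (tr (1, 1)) ≤ 2 * 1 := tr_ht le_rfl le_rfl
        have h5 : ((ht (tr (1, 1)) : ℕ) : ℝ) ≤ 2 := by exact_mod_cast h4
        linarith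
    have h4 : 0 < {x : Fin 3 → ℤ | Adm x ∧ (pd (pr x).primeFactors : ℝ) ≤ X ∧
        ((pr x).primeFactors.card : ℝ) ≤ Real.log X ^ β ∧ (ht x : ℝ) ≤ X}.ncard :=
      (Set.ncard_pos (fin_ht' X _)).2 ⟨_, h3⟩
    exact_mod_cast h4
  · -- large values
    have hX8 : 8 ≤ X := hX1.trans hge
    set Z : ℝ := X ^ (1 / 3 : ℝ) with hZ
    have hZ3 : Z ^ 3 = X := by
      rw [hZ, ← Real.rpow_natCast, ← Real.rpow_mul hX0]
      norm_num
    have hZ2 : X ^ (2 / 3 : ℝ) = Z ^ 2 := by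
      rw [hZ, ← Real.rpow_natCast, ← Real.rpow_mul hX0]
      norm_num
    have hZ0 : 0 ≤ Z := Real.rpow_nonneg hX0 _
    have hZge : 2 ≤ Z := by
      by_contra hc
      push Not at hc
      have : Z ^ 3 < 2 ^ 3 := pow_lt_pow_left₀ hc hZ0 (by norm_num)
      linarith
    have hZX : Z ≤ X := by
      rw [← hZ3]
      nlinarith [sq_nonneg Z]
    set Y : ℕ := ⌊Z / 2⌋₊ with hY
    have hYle : (Y : ℝ) ≤ Z / 2 := Nat.floor_le (by positivity)
    have hYlt : Z / 2 < (Y : ℝ) + 1 := Nat.lt_floor_add_one _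
    have hY1 : 1 ≤ Y := by
      rw [hY, Nat.one_le_floor_iff]
      linarith
    have hY1' : (1 : ℝ) ≤ Y := by exact_mod_cast hY1
    set L : ℝ := Real.log X ^ β with hL
    have hsub : (((CP Y).filter fun q => ((pr (tr q)).primeFactors.card : ℝ) ≤ L).image tr :
        Set (Fin 3 → ℤ)) ⊆ {x : Fin 3 → ℤ | Adm x ∧ (pd (pr x).primeFactors : ℝ) ≤ X ∧
        ((pr x).primeFactors.card : ℝ) ≤ L ∧ (ht x : ℝ) ≤ X} := by
      intro x hx
      rw [Finset.mem_coe, Finset.mem_image] at hx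
      obtain ⟨q, hq, rfl⟩ := hx
      rw [Finset.mem_filter] at hq
      obtain ⟨hq, hqL⟩ := hq
      unfold CP at hq
      rw [Finset.mem_filter, Finset.mem_product, Finset.mem_Icc, Finset.mem_Icc] at hq
      obtain ⟨⟨⟨ha, hb⟩, hc, hd⟩, hn⟩ := hq
      refine ⟨tr_adm ha hc hn, ?_, hqL, ?_⟩
      · have h1 := tr_pd ha hc hb hd
        have h2 : ((pd (pr (tr q)).primeFactors : ℕ) : ℝ) ≤ 2 * (Y : ℝ) ^ 3 := by
          exact_mod_cast h1
        have h3 : (Y : ℝ) ^ 3 ≤ (Z / 2) ^ 3 := pow_le_pow_left₀ (by positivity) hYle 3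
        have h4 : (Z / 2) ^ 3 = X / 8 := by
          rw [div_pow, hZ3]
          norm_num
        linarith
      · have h1 := tr_ht hb hd
        have h2 : ((ht (tr q) : ℕ) : ℝ) ≤ 2 * (Y : ℝ) := by exact_mod_cast h1
        linarith
    have hcard : (((CP Y).filter fun q => ((pr (tr q)).primeFactors.card : ℝ) ≤ L).card : ℝ) ≤
        ({x : Fin 3 → ℤ | Adm x ∧ (pd (pr x).primeFactors : ℝ) ≤ X ∧
        ((pr x).primeFactors.card : ℝ) ≤ L ∧ (ht x : ℝ) ≤ X}.ncard : ℝ) := by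
      have h1 := Set.ncard_le_ncard hsub (fin_ht' X L)
      rw [Set.ncard_coe_finset, Finset.card_image_of_injective _ tr_inj] at h1
      exact_mod_cast h1
    have h8 := cop_card Y
    have h9 := Finset.card_filter_add_card_filter_not (s := CP Y)
      (fun q => ((pr (tr q)).primeFactors.card : ℝ) ≤ L)
    have h9' : (((CP Y).filter fun q => ((pr (tr q)).primeFactors.card : ℝ) ≤ L).card : ℝ) +
        (((CP Y).filter fun q => ¬ ((pr (tr q)).primeFactors.card : ℝ) ≤ L).card : ℝ) =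
        (CP Y).card := by exact_mod_cast h9
    have h10 := bad_pairs Y L
    have b1 := bad_card Y (L / 3)
    have b2 := bad_card (2 * Y) (L / 3)
    have hlX := hev X hge
    set P : ℝ := (2 : ℝ) ^ (L / 3) with hP
    have hP0 : 0 < P := Real.rpow_pos_of_pos (by norm_num) _
    have hl1 : Real.log Y ≤ Real.log X := Real.log_le_log (by linarith) (by linarith)
    have hl2 : Real.log ((2 * Y : ℕ) : ℝ) ≤ Real.log X := by
      refine Real.log_le_log (by push_cast; linarith) ?_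
      push_cast
      linarith
    have c1 : ((Bd Y (L / 3)).card : ℝ) * P ≤ Y * (P / 32) := by
      refine b1.trans (mul_le_mul_of_nonneg_left ?_ (Nat.cast_nonneg _))
      linarith
    have c2 : ((Bd (2 * Y) (L / 3)).card : ℝ) * P ≤ 2 * Y * (P / 32) := by
      refine b2.trans ?_
      push_cast at hl2 ⊢
      refine mul_le_mul_of_nonneg_left ?_ (by positivity)
      linarith
    have c1' : ((Bd Y (L / 3)).card : ℝ) ≤ Y / 32 := by
      refine le_of_mul_le_mul_right ?_ hP0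
      linarith
    have c2' : ((Bd (2 * Y) (L / 3)).card : ℝ) ≤ Y / 16 := by
      refine le_of_mul_le_mul_right ?_ hP0
      linarith
    have d1 : (Y : ℝ) * (Bd Y (L / 3)).card ≤ Y * (Y / 32) :=
      mul_le_mul_of_nonneg_left c1' (by positivity)
    have d2 : (Y : ℝ) * (Bd (2 * Y) (L / 3)).card ≤ Y * (Y / 16) :=
      mul_le_mul_of_nonneg_left c2' (by positivity)
    have h11 : (Y : ℝ) ^ 2 / 8 ≤
        (((CP Y).filter fun q => ((pr (tr q)).primeFactors.card : ℝ) ≤ L).card : ℝ) := by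
      nlinarith
    have h12 : min (1 / 128) (X1 ^ (-(2 / 3) : ℝ)) * X ^ (2 / 3 : ℝ) ≤ 1 / 128 * Z ^ 2 := by
      rw [hZ2]
      exact mul_le_mul_of_nonneg_right (min_le_left _ _) (sq_nonneg _)
    refine h12.trans ((le_trans ?_ h11).trans hcard)
    have h13 : Z / 4 ≤ Y := by linarith
    nlinarith

end Pool.Agent.H6.AB
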